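import Pool.Agent.Work.MP_be9894_co.AA.Main

set_option autoImplicit false

namespace Pool.Agent.Work.MP_be9894_co.Old.AlmostAll

/-- There are classes `U n` of labelled oriented trees on `n` vertices (given by their arc relations), of density tending
to one, such that two members of `U n` with the same strict order quasisymmetric function are isomorphic. -/
theorem result :
  ∃ U : (n : ℕ) → Set (Fin n → Fin n → Prop),
    (∀ n, U n ⊆ {r | (SimpleGraph.fromRel r).IsTree ∧ ∀ a b, r a b → ¬ r b a}) ∧
    Filter.Tendsto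
      (fun n : ℕ => ((U n).ncard : ℝ) /
        (Set.ncard {r : Fin n → Fin n → Prop | (SimpleGraph.fromRel r).IsTree ∧ ∀ a b, r a b → ¬ r b a} : ℝ))
      Filter.atTop (nhds 1) ∧
    ∀ n, ∀ r ∈ U n, ∀ s ∈ U n,
      (∀ m : ℕ →₀ ℕ,
        Set.ncard {f : Fin n → ℕ | (∀ a b, r a b → f a < f b) ∧
            ∀ i : ℕ, (Finset.univ.filter (fun a => f a = i)).card = m i} =
        Set.ncard {g : Fin n → ℕ | (∀ a b, s a b → g a < g b) ∧
            ∀ i : ℕ, (Finset.univ.filter (fun b => g b = i)).card = m i}) →
      Nonempty (r ≃r s) :=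
  Pool.Agent.Work.MP_be9894_co.AA.main

end Pool.Agent.Work.MP_be9894_co.Old.AlmostAll
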